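import Pool.Agent.Y463.MP.SgnFin

/-!
# Crossing changes in a fixed braid shadow: exponentially few diagrams with a given Jones polynomial

Diagrams (starting library `Pool.Agent.H891R2.Jones.Diagram`): `Diagram P` (oriented link diagrams with
marked points `P`), `Diagram.fPoly` (the normalised bracket `(-A^{-3})^{w(D)} ⟨D⟩`, that is the Jones
polynomial in the variable `A = t^{-1/4}`), `Outer m` (the part of an oriented diagram outside a box through
which `m` strands run, with arbitrary directions; neither planarity nor closedness is required).
`Pool.Agent.W639.RB.Defs` (starting library): `Letter m = Bool × Fin (m - 1)` (the letters `σ_i^{±1}`),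
`diagram O w` (the diagram obtained by drawing the word `w : Fin n → Letter m` in the box of `O`).

`Pool.Agent.Y463.MP.Defs`: `Flips w S` (the words obtained from the word `w` by changing some of the
crossings whose numbers are in `S`), `switches w S` (the number of pairs of consecutive crossings which both
belong to `S` and are at neighbouring places of the braid), `nonmult N f` (the number of the coefficients
of the Laurent polynomial `f` which are not divisible by `N`), `osize O`, `dsize D` (the number of crossings
and marked points of an outside and of a diagram).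

Proof.  Modulo a prime `ℓ` the normalised brackets are the values of linear functionals on the orbit of a
vector under the braid monoid, in a representation over the algebraic closure `L` of `𝔽_ℓ(A)`.  The braids act
by permutations, hence by isometries of `ℓ²`, on the set of the subspaces; the crossings which are not changed
do no harm.  Two neighbouring crossings `σ_i^{±1} σ_{i+1}^{±1}` with random signs make functions smaller by a
factor `ρ < 1` if they live on subspaces none of whose translates is stable under a Temperley-Lieb
generator: otherwise a translate of the function is nearly invariant under `σ_i²` and `σ_{i+1}²`, hence under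
`(σ_{i+1} σ_i⁻¹)³ = [σ_{i+1}², σ_i²]` and `(σ_i⁻¹ σ_{i+1})³ = [σ_i⁻², σ_{i+1}⁻²]`, which play ping-pong with
constants independent of `ℓ` for a valuation of `L` with `|A| < 1`.  The other subspaces are never reached,
because a diagram with a cup-cap pair in the box has a nonzero bracket at the roots of `A^4 + A^2 + 1` in
characteristic `ℓ`.  An induction on the dimension of subspaces gives the exponential bound.
-/

set_option autoImplicit false

namespace Pool.Agent.Results.MP_42db45_gt.CrossingChanges

open Finset LaurentPolynomial Pool.Agent.H891R2.Jones Pool.Agent.W639.RB Pool.Agent.Y463.MP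

open Classical in
/-- **Crossing changes in a braid box.**  Let `m ≥ 3`.  There is `r < 1` such that:

* there is `C` such that for all `N ≥ 2`, all outsides `O` of a box with `m` strands, all Laurent polynomials
  `g` (for instance `g = 1`), all words `w` of any length `n` and all sets `S` of crossings of `w`, among the
  `2^|S|` words obtained by changing some of the crossings in `S` the proportion of those which give a
  diagram whose normalised bracket is congruent to `g` modulo `N` is at most `C r^s`, where `s` is the number
  of pairs of consecutive crossings in `S` at neighbouring places (`switches w S`);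
* for all `N ≥ 2` and `κ` there are `δ > 0` and `C` such that if the word and the outside together have at
  most `κ (s + 1)` crossings and marked points, the proportion of those for which at most `δ s` coefficients
  of the normalised bracket are not divisible by `N` is at most `C r^s`;
* for all `N ≥ 2` and `κ` there are `ε > 0` and `C` such that in the same situation the proportion of those
  whose normalised bracket is congruent modulo `N` to the one of some diagram with at most `ε s` crossings
  and marked points is at most `C r^s`. -/
theorem result (m : ℕ) (hm : 3 ≤ m) : ∃ r : ℝ, 0 < r ∧ r < 1 ∧ 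
    (∃ C : ℝ, ∀ N : ℕ, 2 ≤ N → ∀ (O : Outer m) (g : ℤ[T;T⁻¹]) (n : ℕ) (w : Fin n → Letter m) 
      (S : Finset (Fin n)), 
      (((Flips w S).filter (fun w' => (N : ℤ[T;T⁻¹]) ∣ (diagram O w').fPoly - g)).card : ℝ) ≤ 
        C * r ^ switches w S * (Flips w S).card) ∧ 
    (∀ N : ℕ, 2 ≤ N → ∀ κ : ℝ, ∃ δ : ℝ, 0 < δ ∧ ∃ C : ℝ, ∀ (O : Outer m) (n : ℕ) (w : Fin n → Letter m) 
      (S : Finset (Fin n)), (osize O + n : ℝ) ≤ κ * (switches w S + 1) → 
      (((Flips w S).filter (fun w' => (nonmult N (diagram O w').fPoly : ℝ) ≤ δ * switches w S)).card : ℝ) ≤ 
        C * r ^ switches w S * (Flips w S).card) ∧ 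
    (∀ N : ℕ, 2 ≤ N → ∀ κ : ℝ, ∃ ε : ℝ, 0 < ε ∧ ∃ C : ℝ, ∀ (O : Outer m) (n : ℕ) (w : Fin n → Letter m) 
      (S : Finset (Fin n)), (osize O + n : ℝ) ≤ κ * (switches w S + 1) → 
      (((Flips w S).filter (fun w' => ∃ (P : Type) (_ : Finite P) (D : Diagram P), 
        (dsize D : ℝ) ≤ ε * switches w S ∧ 
          (N : ℤ[T;T⁻¹]) ∣ (diagram O w').fPoly - D.fPoly)).card : ℝ) ≤ 
        C * r ^ switches w S * (Flips w S).card) := by
  obtain ⟨r, hr0, hr1, ⟨C, hC⟩, h2⟩ := finalS hm
  refine ⟨r, hr0, hr1, ⟨C, ?_⟩, ?_, ?_⟩
  · intro N hN O g n w S
    rw [card_Flips]
    exact hC N hN O g n w S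
  · intro N hN κ
    obtain ⟨δ, hδ, C, hC⟩ := h2 N hN κ
    refine ⟨δ, hδ, C, ?_⟩
    intro O n w S hO
    rw [card_Flips]
    exact hC O n w S hO
  · intro N hN κ
    obtain ⟨δ, hδ, C, hC⟩ := h2 N hN κ
    obtain ⟨ε, hε, C', hC'⟩ := shortS r hr0 hr1 N κ δ hδ C hC
    refine ⟨ε, hε, C', ?_⟩
    intro O n w S hO
    rw [card_Flips]
    exact hC' O n w S hO

end Pool.Agent.Results.MP_42db45_gt.CrossingChanges
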