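import Pool.Agent.Y463.UT.Fin

/-!
# A Littlewood–Offord inequality for the Jones polynomial of diagrams with random twist regions

Diagrams (starting library `Pool.Agent.H891R2.Jones.Diagram`): `Diagram P` (oriented link diagrams with
marked points `P`), `Diagram.fPoly` (the normalised bracket `(-A^{-3})^{w(D)} ⟨D⟩`, that is the Jones
polynomial in the variable `A = t^{-1/4}`), `Outer m` (the part of an oriented diagram outside a box through
which `m` strands run, with arbitrary directions; neither planarity nor closedness is required).
`Pool.Agent.W639.RB.Defs` (starting library): `Letter m = Bool × Fin (m - 1)` (the letters `σ_i^{±1}`).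

`Pool.Agent.Y463.SK.Defs`: `dia O w` (the diagram with the word `w` in the box of `O`), `powW w n` (the word
`w^n`, `n ∈ ℤ`).  `Pool.Agent.Y463.MP.Defs`: `nonmult N f` (the number of the coefficients of `f` which are not
divisible by `N`), `osize`, `dsize` (the number of crossings and marked points of an outside, of a diagram).
`Pool.Agent.Y463.UT.Defs`: `Law` (probability distributions with finite support on `ℤ`), `Law.Spread ε` (no
value has probability larger than `ε`), `prob μ E` (the probability of `E` for independent integers with the
distributions `μ_j`), `tw i x` (the word `σ_{i_1}^{x_1} ⋯ σ_{i_k}^{x_k}`), `turns i μ ε` (the number of `j` such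
that `|i_j - i_{j+1}| = 1` and `μ_j`, `μ_{j+1}` are `ε`-spread).

Proof.  Modulo a prime `ℓ` the normalised brackets are the values of linear functionals on the orbit of a
vector of `TL_m ⊗ L ⊕ L` under the braid groupoid of the strands with directions, `L` the algebraic closure of
`𝔽_ℓ(A)`.  The braids act on the set `X` of pairs (directions, subspace).  For two neighbouring generators
`σ_i`, `σ_{i+1}` every subspace which is not stable under a Temperley–Lieb generator has an equivariant
vector `q ∈ L²`, and for a valuation with `|A| < 1` every `q` is near one of two places, where the orbit of `q`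
under the powers of `σ_i` (of `σ_{i+1}`) is near the first (second) place for at most two consecutive powers.
Hence the average over the random powers of `σ_i` and `σ_{i+1}` makes the norms in `ℓ²(X)` smaller by the
factor `√(8ε)`.  The other subspaces are never reached, because a diagram with a cup-cap pair in the box has
a nonzero bracket at the roots of `A^4 + A^2 + 1`.  The probability that the random vector lies in a subspace
of dimension `d + 1` is estimated by the one for dimension `d`: if all subspaces of dimension `≤ d` have
probability `≤ η`, then the subspaces of dimension `d + 1` with probability `≥ 2η` have total probability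
`≤ 2η^{-d}`, because they contain many disjoint sets of independent `(d+1)`-tuples.
-/

set_option autoImplicit false

namespace Pool.Agent.Results.MP_42db45_gt.LittlewoodOfford

open LaurentPolynomial Pool.Agent.H891R2.Jones Pool.Agent.W639.RB Pool.Agent.Y463.SK Pool.Agent.Y463.UT 
  Pool.Agent.Y463.MP

/-- **A Littlewood–Offord inequality for the Jones polynomial.**  Let `m ≥ 3`.  There is a constant `C` such
that for all `N ≥ 2` the following holds for all outsides `O` of a box with `m` strands, all sequences
`i_1, …, i_k` of places, all independent random exponents `x_1, …, x_k ∈ ℤ` (with finite supports and arbitrary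
distributions), all `ε > 0` and all `u` such that for at least `u (m! + 1) (m! + 2)` values of `j` the places
`i_j` and `i_{j+1}` are neighbouring and no value of `x_j` or `x_{j+1}` has probability larger than `ε`:

* for every Laurent polynomial `g` (for instance `g = 1`) the diagram with `σ_{i_1}^{x_1} ⋯ σ_{i_k}^{x_k}` in the
  box has a normalised bracket congruent to `g` modulo `N` with probability at most `C (8ε)^{u/2}`;
* for every `κ` there is `C'` (independent of `O`, `k`, `i`, `ε`, `u` and of the distributions) such that if all
  the diagrams have at most `κ (u + 1) / ε` crossings and marked points in the outside and crossings in the box,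
  then with probability at least `1 - C (C' ε)^{u/4}` more than `u/4` coefficients of the normalised bracket
  are not divisible by `N`, and with the same probability at least the normalised bracket is not congruent
  modulo `N` to the one of any diagram `D` with `16 dsize D + 4 ≤ u`. -/
theorem result (m : ℕ) (hm : 3 ≤ m) : ∃ C : ℝ, ∀ N : ℕ, 2 ≤ N → 
    (∀ (O : Outer m) (g : ℤ[T;T⁻¹]) (k : ℕ) (i : Fin k → Fin (m - 1)) (μ : Fin k → Law) (ε : ℝ), 0 < ε → 
      ∀ u : ℕ, u * ((m.factorial + 1) * (m.factorial + 2)) ≤ turns i μ ε → 
        prob μ (fun x => (N : ℤ[T;T⁻¹]) ∣ (dia O (tw i x)).fPoly - g) ≤ C * (8 * ε) ^ ((u : ℝ) / 2)) ∧ 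
    (∀ κ : ℝ, ∃ C' : ℝ, ∀ (O : Outer m) (k : ℕ) (i : Fin k → Fin (m - 1)) (μ : Fin k → Law) (ε : ℝ), 
      0 < ε → ∀ u : ℕ, u * ((m.factorial + 1) * (m.factorial + 2)) ≤ turns i μ ε → 
        (∀ x ∈ Fintype.piFinset (fun j => (μ j).A), (osize O : ℝ) + ∑ j, |(x j : ℝ)| ≤ κ * (u + 1) / ε) → 
          prob μ (fun x => 4 * nonmult N (dia O (tw i x)).fPoly ≤ u) ≤ C * (C' * ε) ^ ((u : ℝ) / 4) ∧ 
          prob μ (fun x => ∃ (P : Type) (_ : Finite P) (D : Diagram P), 16 * dsize D + 4 ≤ u ∧ 
            (N : ℤ[T;T⁻¹]) ∣ (dia O (tw i x)).fPoly - D.fPoly) ≤ C * (C' * ε) ^ ((u : ℝ) / 4)) := by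
  refine ⟨Real.exp 1 * CU m, fun N hN => ⟨?_, ?_⟩⟩
  · intro O g k i μ ε hε u hu
    have h1 := final hm N hN O g k i μ ε hε u hu
    have h2 : 1 ≤ Real.exp 1 := Real.one_le_exp (by norm_num)
    have h3 : 0 ≤ CU m * (8 * ε) ^ ((u : ℝ) / 2) := (prob_nonneg μ _).trans h1
    rw [mul_assoc]
    exact h1.trans (le_mul_of_one_le_left h3 h2)
  · intro κ
    obtain ⟨C', _, h⟩ := final2 hm N hN κ
    refine ⟨C', fun O k i μ ε hε u hu hsz => ?_⟩
    have h1 := h O k i μ ε hε u hu hsz
    exact ⟨h1, (final3 N O i μ u).trans h1⟩

end Pool.Agent.Results.MP_42db45_gt.LittlewoodOfford
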