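import Pool.Agent.Y463.MP.Fin

/-!
# Random braid words: the Jones polynomial modulo `N`, and its number of terms

Diagrams (starting library `Pool.Agent.H891R2.Jones.Diagram`): `Diagram P` (oriented link diagrams with
marked points `P`), `Diagram.fPoly` (the normalised bracket `(-A^{-3})^{w(D)} ⟨D⟩`, that is the Jones
polynomial in the variable `A = t^{-1/4}`), `Outer m` (the part of an oriented diagram outside a box through
which `m` strands run, with arbitrary directions; neither planarity nor closedness is required).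
`Pool.Agent.W639.RB.Defs` (starting library): `Letter m = Bool × Fin (m - 1)` (the letters `σ_i^{±1}`),
`diagram O w` (the diagram obtained by drawing the word `w : Fin n → Letter m` in the box of `O`);
`Pool.Agent.W639.RB.Knots`: `IsKnot w` (the permutation of `w` has a single cycle, i.e. the closure of the
braid word `w` is a knot).

`Pool.Agent.Y463.MP.Defs`: `nonmult N f` (the number of the coefficients of the Laurent polynomial `f` which
are not divisible by `N`), `Pr p n E` (the probability of the property `E` for a word of `n` independent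
letters with the distribution `p`), `osize O`, `dsize D` (the number of crossings and marked points of an
outside and of a diagram).

Proof.  Modulo a prime `ℓ` the normalised brackets are the values of linear functionals on the orbit of a
vector under the braid monoid, in a representation over the algebraic closure `L` of `𝔽_ℓ(A)` (the
Temperley-Lieb algebra over `ℤ[A, A⁻¹]`, spanned by `m!` words, tensored with `L`, plus the directions of the
strands).  For a valuation of `L` with `|A| < 1` the third powers of `σ_{i+1} σ_i⁻¹` and `σ_i⁻¹ σ_{i+1}` play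
ping-pong with constants which do not depend on `ℓ`, on the subspaces which are not stable under the two
Temperley-Lieb generators.  This gives a spectral gap depending only on `m` and `p`, and an induction on the
dimension of subspaces gives the exponential bound.  The stable subspaces are excluded by evaluating at a
root of `A^4 + A^2 + 1` in characteristic `ℓ`.  The number of the polynomials modulo `ℓ` with at most `δ n`
terms in a window of length `O(n)` is at most `e^{η n}` with small `η`.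
-/

set_option autoImplicit false

namespace Pool.Agent.Results.MP_42db45_gt.RandomBraidsModN

open Finset LaurentPolynomial Pool.Agent.H891R2.Jones Pool.Agent.W639.RB Pool.Agent.Y463.MP

open Classical in
/-- **The Jones polynomial of random braid words modulo `N`.**  Let `m ≥ 3`.

* Let `p > 0` be a probability vector on the letters `σ_i^{±1}` of the braid group on `m` strands.  There is
  `r < 1` such that:
  - there is `C` such that for all `N ≥ 2`, all outsides `O` of a box with `m` strands, all Laurent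
    polynomials `g` (for instance `g = 1`) and all `n`, the normalised bracket of the diagram with a random
    word of length `n` in the box is congruent to `g` modulo `N` with probability at most `C r^n`;
  - for all `N ≥ 2` and `κ` there are `δ > 0` and `C` such that for all `O` with at most `κ (n + 1)`
    crossings and marked points, the normalised bracket has at most `δ n` coefficients not divisible by `N`
    with probability at most `C r^n`;
  - for all `N ≥ 2` and `κ` there are `ε > 0` and `C` such that for these `O`, with probability at most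
    `C r^n` there is a diagram with at most `ε n` crossings and marked points whose normalised bracket is
    congruent to the one of the random diagram modulo `N`.
* The same three bounds hold for the proportion among the words of length `n` whose closure is a knot
  (for `n ≡ m - 1` modulo 2, `n` large; the uniform distribution on the words). -/
theorem result (m : ℕ) (hm : 3 ≤ m) : 
    (∀ p : Letter m → ℝ, (∀ x, 0 < p x) → ∑ x, p x = 1 → ∃ r : ℝ, 0 < r ∧ r < 1 ∧ 
      (∃ C : ℝ, ∀ N : ℕ, 2 ≤ N → ∀ (O : Outer m) (g : ℤ[T;T⁻¹]) (n : ℕ), 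
        Pr p n (fun w => (N : ℤ[T;T⁻¹]) ∣ (diagram O w).fPoly - g) ≤ C * r ^ n) ∧ 
      (∀ N : ℕ, 2 ≤ N → ∀ κ : ℝ, ∃ δ : ℝ, 0 < δ ∧ ∃ C : ℝ, ∀ (O : Outer m) (n : ℕ), 
        (osize O : ℝ) ≤ κ * (n + 1) → 
        Pr p n (fun w => (nonmult N (diagram O w).fPoly : ℝ) ≤ δ * n) ≤ C * r ^ n) ∧ 
      (∀ N : ℕ, 2 ≤ N → ∀ κ : ℝ, ∃ ε : ℝ, 0 < ε ∧ ∃ C : ℝ, ∀ (O : Outer m) (n : ℕ), 
        (osize O : ℝ) ≤ κ * (n + 1) → 
        Pr p n (fun w => ∃ (P : Type) (_ : Finite P) (D : Diagram P), (dsize D : ℝ) ≤ ε * n ∧ 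
          (N : ℤ[T;T⁻¹]) ∣ (diagram O w).fPoly - D.fPoly) ≤ C * r ^ n)) ∧
    (∃ (r : ℝ) (l0 : ℕ), 0 < r ∧ r < 1 ∧ 
      (∃ C : ℝ, ∀ N : ℕ, 2 ≤ N → ∀ (O : Outer m) (g : ℤ[T;T⁻¹]) (n : ℕ), 
        l0 ≤ n → n % 2 = (m - 1) % 2 → 
        ((univ.filter (fun w : Fin n → Letter m => 
          IsKnot w ∧ (N : ℤ[T;T⁻¹]) ∣ (diagram O w).fPoly - g)).card : ℝ) ≤ 
            C * r ^ n * (univ.filter (fun w : Fin n → Letter m => IsKnot w)).card) ∧ 
      (∀ N : ℕ, 2 ≤ N → ∀ κ : ℝ, ∃ δ : ℝ, 0 < δ ∧ ∃ C : ℝ, ∀ (O : Outer m) (n : ℕ), 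
        l0 ≤ n → n % 2 = (m - 1) % 2 → (osize O : ℝ) ≤ κ * (n + 1) → 
        ((univ.filter (fun w : Fin n → Letter m => 
          IsKnot w ∧ (nonmult N (diagram O w).fPoly : ℝ) ≤ δ * n)).card : ℝ) ≤ 
            C * r ^ n * (univ.filter (fun w : Fin n → Letter m => IsKnot w)).card) ∧ 
      (∀ N : ℕ, 2 ≤ N → ∀ κ : ℝ, ∃ ε : ℝ, 0 < ε ∧ ∃ C : ℝ, ∀ (O : Outer m) (n : ℕ), 
        l0 ≤ n → n % 2 = (m - 1) % 2 → (osize O : ℝ) ≤ κ * (n + 1) → 
        ((univ.filter (fun w : Fin n → Letter m => 
          IsKnot w ∧ ∃ (P : Type) (_ : Finite P) (D : Diagram P), (dsize D : ℝ) ≤ ε * n ∧ 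
            (N : ℤ[T;T⁻¹]) ∣ (diagram O w).fPoly - D.fPoly)).card : ℝ) ≤ 
              C * r ^ n * (univ.filter (fun w : Fin n → Letter m => IsKnot w)).card)) := by
  have key : ∀ p : Letter m → ℝ, (∀ x, 0 < p x) → ∑ x, p x = 1 → ∃ r : ℝ, 0 < r ∧ r < 1 ∧ 
      (∃ C : ℝ, ∀ N : ℕ, 2 ≤ N → ∀ (O : Outer m) (g : ℤ[T;T⁻¹]) (n : ℕ), 
        Pr p n (fun w => (N : ℤ[T;T⁻¹]) ∣ (diagram O w).fPoly - g) ≤ C * r ^ n) ∧ 
      (∀ N : ℕ, 2 ≤ N → ∀ κ : ℝ, ∃ δ : ℝ, 0 < δ ∧ ∃ C : ℝ, ∀ (O : Outer m) (n : ℕ), 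
        (osize O : ℝ) ≤ κ * (n + 1) → 
        Pr p n (fun w => (nonmult N (diagram O w).fPoly : ℝ) ≤ δ * n) ≤ C * r ^ n) ∧ 
      (∀ N : ℕ, 2 ≤ N → ∀ κ : ℝ, ∃ ε : ℝ, 0 < ε ∧ ∃ C : ℝ, ∀ (O : Outer m) (n : ℕ), 
        (osize O : ℝ) ≤ κ * (n + 1) → 
        Pr p n (fun w => ∃ (P : Type) (_ : Finite P) (D : Diagram P), (dsize D : ℝ) ≤ ε * n ∧ 
          (N : ℤ[T;T⁻¹]) ∣ (diagram O w).fPoly - D.fPoly) ≤ C * r ^ n) := by
    intro p hp hs
    obtain ⟨r, hr0, hr1, h1, h2⟩ := final hm p hp hs
    refine ⟨r, hr0, hr1, h1, h2, ?_⟩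
    intro N hN κ
    obtain ⟨δ, hδ, C, hC⟩ := h2 N hN κ
    exact short p hp hs r hr0 hr1 N κ δ hδ C hC
  refine ⟨key, ?_⟩
  have hD0 : (0:ℝ) < ((2 * (m - 1) : ℕ) : ℝ) := by
    have : 0 < 2 * (m - 1) := by omega
    exact_mod_cast this
  obtain ⟨r, hr0, hr1, ⟨C1, h1⟩, h2, h3⟩ := key (fun _ => 1 / ((2 * (m - 1) : ℕ) : ℝ)) 
    (fun _ => by positivity) (by
      rw [Finset.sum_const, Finset.card_univ, Pool.Agent.W705.JR.card_letter, nsmul_eq_mul]
      field_simp)
  obtain ⟨l0, c, hc, hk⟩ := knotsE (m := m) (by omega) r hr0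
  have hpow : ∀ n : ℕ, 0 ≤ r ^ n := fun n => by positivity
  refine ⟨r, l0, hr0, hr1, ⟨c * max C1 0, ?_⟩, ?_, ?_⟩
  · intro N hN O g n hn hpar
    exact hk n (max C1 0) _ hn hpar (le_max_right _ _) ((h1 N hN O g n).trans 
      (mul_le_mul_of_nonneg_right (le_max_left _ _) (hpow n)))
  · intro N hN κ
    obtain ⟨δ, hδ, C, hC⟩ := h2 N hN κ
    refine ⟨δ, hδ, c * max C 0, ?_⟩
    intro O n hn hpar hO
    exact hk n (max C 0) _ hn hpar (le_max_right _ _) ((hC O n hO).trans 
      (mul_le_mul_of_nonneg_right (le_max_left _ _) (hpow n)))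
  · intro N hN κ
    obtain ⟨ε, hε, C, hC⟩ := h3 N hN κ
    refine ⟨ε, hε, c * max C 0, ?_⟩
    intro O n hn hpar hO
    exact hk n (max C 0) _ hn hpar (le_max_right _ _) ((hC O n hO).trans 
      (mul_le_mul_of_nonneg_right (le_max_left _ _) (hpow n)))

end Pool.Agent.Results.MP_42db45_gt.RandomBraidsModN
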