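import Pool.Agent.Y463.CD.Fin

/-!
# Rigidity and codimension of the Jones-trivial members of a twist family

Diagrams (starting library): `Pool.Agent.H891R2.Jones.Diagram` (`Diagram`, `bracket`, `fPoly`, the normalised
bracket), `Pool.Agent.H891R2.MT.Defs` (`UDiagram`: unoriented diagrams; `Orients D U`: `D` is `U` with
directions; `nS w S = ∑ e ∈ S, w e`; `Ribbon k`: ribbon graphs with `k` edges; `Ribbon.Planar`: connected and
plane; `Γ.verts`: the number of vertices; `Γ.link w`: the boundary of the plane surface with one disc for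
every vertex and a band with `w e` half twists, a row of `|w e|` crossings, for every edge `e`) and
`Pool.Agent.H891R2.SI.Defs`:

* `Sites k`: a diagram `O` (planar or not) with `k` open boxes (sites); `O.Connected`: the diagram is
  connected, each site being one piece; `O.crossings`: the crossings outside the sites;
* `O.fill w`, `w ∈ ℤ^k`: the site `e` is filled with two strands twisted around each other, a row of
  `|w e|` crossings of the kind given by the sign of `w e`;
* `det U`: the determinant, `|⟨U⟩|` at `A = e^{πi/4}` (odd for knots).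

`SpanLE s U` (starting library): for some directions the Jones polynomial has span at most `s`;
`IsPow u`: `u = ± A ^ n`.  New definitions (`Pool.Agent.Y463.CD`):

* `Small O s w`: for some directions (hence for all) the Jones polynomial of `O.fill w` has span at most `s`,
  that is, its normalised bracket is supported in an interval of length `4 s`;
* `Coset O s w` is the set of all `w' ∈ ℤ^k` with `w'(S) - w'(S') = w(S) - w(S')` for all sets `S`, `S'` of sites
  with `2 |w(S) - w(S')| ≤ 3 c + 6 k + 2 s`, where `c` is the number of crossings of `O`: a coset of a subgroup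
  of `ℤ^k`;
* `Many X n w`: there are `n` pairs `S i`, `S' i` of sets of sites such that the vectors `1_{S i} - 1_{S' i}` are
  linearly independent and `2 |w(S i) - w(S' i)| ≤ X` for all `i`; `one R` is the vector `1_R`;
* `flat O`: every site is filled with two strands without crossings, `pieces U`: the number of connected
  pieces of the diagram `U` (for a diagram without crossings: the number of its closed curves);
* `braidSites m i hi`: the closure of the braid `σ_{i 0} ^ {w 0} σ_{i 1} ^ {w 1} ⋯` on `m` strands, as a diagram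
  with one site for every factor.

Proof: the bracket is a signed sum of `A^{-4 w(R)} Z(R)` over the sets `R` of sites (starting library).  If its
support is short, then the exponents decompose into clusters all of which but one cancel, so that the
bracket changes by a unit if `w` is moved within its coset.  At `A = e^{πi/4}` the bracket is (up to a unit) a
polynomial in `w` of degree one in every variable all of whose monomials have at least `pieces - 1` variables;
such a polynomial takes the value `0` on every subspace of codimension less than `pieces - 1`.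
-/

set_option autoImplicit false

namespace Pool.Agent.Results.MP_42db45_gt.TwistCodimension

open Finset Pool.Agent.H891R2.Jones Pool.Agent.H891R2.MT Pool.Agent.H891R2.SI Pool.Agent.Y463.CD
open Pool.Agent.H891R2.ZO (IsPow)

/-- **Rigidity and codimension.**  Let `O` be a connected diagram with `k ≥ 1` twist sites and `c` crossings
outside the sites, `D(w) = O.fill w` for `w ∈ ℤ^k`, and `s ≥ 0`.  Let `E` be the set of all `w` for which the
Jones polynomial of `D(w)` has span at most `s` (`f = 1` implies that `w ∈ E` for `s = 0`, and `det D(w) ≠ 0`).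

* Rigidity: if `w ∈ E`, then the Jones polynomials of all `D(w')`, `w' ∈ Coset O s w`, are equal to the one of
  `D(w)` up to units `± A^n`.
* `E` is the union of the cosets of at most `(3^k (3 c + 6 k + 2 s + 1) + 1)^k` vectors; in particular the links
  `D(w)` have at most so many Jones polynomials of span at most `s`, up to units.
* Every `w ∈ E` satisfies `|w e| ≤ k k! (3 c + 6 k + 2 s)` for all `e`, or all `D(w + t y)`, `t ∈ ℤ`, have the same
  Jones polynomial up to units, for some `y ≠ 0`.
* Codimension: let `n + 1` be at most the number of pieces of the diagram `D(0)` (or let all the links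
  `D(q + 1_R)`, `|R| < n`, have determinant `0` for some `q ∈ ℤ^k`). If `w ∈ E` and `det D(w) ≠ 0`, then there are
  `n` linearly independent vectors `1_S - 1_{S'}` with `2 |w(S) - w(S')| ≤ 3 c + 6 k + 2 s`, so that the coset of
  `w` has codimension at least `n`. Hence for all finite sets `A e ⊂ ℤ` with at least `M` elements at most
  `(3^k (3 c + 6 k + 2 s + 1) / M)^n ∏ |A e|` of the `w ∈ ∏ A e` are of this kind, in particular at most
  `(3^k (3 c + 6 k + 2 s + 1))^n (2 N + 1)^(k - n)` of the `w` with `|w e| ≤ N` for all `e`.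
* This holds with `n = m - 1` for the closures of the braids `σ_{i 0} ^ {w 0} ⋯ σ_{i (k-1)} ^ {w (k-1)}` on `m`
  strands, if every generator occurs, and with `n = k + 1 - v`, the number of independent cycles, for the
  links `Γ.link w` of a connected plane graph with `v` vertices and `k` edges; if no vertex has degree one or
  two, then `3 (v - 1) ≤ 2 k - 3`. -/
theorem result :
    (∀ (k : ℕ), 0 < k → ∀ (O : Sites k), O.Connected → 
      (∀ (w : Fin k → ℤ) (D : Diagram (O.P ⊕ Ribbon.Pt w)), Orients D (O.fill w) → D.fPoly = 1 → 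
        Small O 0 w ∧ det (O.fill w) ≠ 0) ∧ 
      ∀ s : ℕ, 
      (∀ w w' : Fin k → ℤ, Small O s w → w' ∈ Coset O s w → 
        ∀ (D : Diagram (O.P ⊕ Ribbon.Pt w)) (D' : Diagram (O.P ⊕ Ribbon.Pt w')), 
          Orients D (O.fill w) → Orients D' (O.fill w') → ∃ u, IsPow u ∧ D'.fPoly = u * D.fPoly) ∧ 
      (∃ W : Finset (Fin k → ℤ), 
        W.card ≤ (3 ^ k * (3 * O.crossings.length + 6 * k + 2 * s + 1) + 1) ^ k ∧ 
        (∀ w ∈ W, Small O s w) ∧ ∀ w, Small O s w ↔ ∃ w' ∈ W, w ∈ Coset O s w') ∧ 
      (∀ w, Small O s w → (∀ e, |w e| ≤ k * k.factorial * (3 * O.crossings.length + 6 * k + 2 * s)) ∨ 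
        ∃ y : Fin k → ℤ, y ≠ 0 ∧ ∀ t : ℤ, w + t • y ∈ Coset O s w) ∧ 
      ∀ n : ℕ, (n + 1 ≤ pieces (flat O) ∨ 
          ∃ q : Fin k → ℤ, ∀ R : Finset (Fin k), R.card < n → det (O.fill (q + one R)) = 0) → 
        (∀ w, Small O s w → det (O.fill w) ≠ 0 → 
          Many (3 * O.crossings.length + 6 * k + 2 * s) n w) ∧ 
        (∀ (A : Fin k → Finset ℤ) (M : ℕ), (∀ e, M ≤ (A e).card) → ∀ B : Finset (Fin k → ℤ), 
          (∀ w ∈ B, (∀ e, w e ∈ A e) ∧ Small O s w ∧ det (O.fill w) ≠ 0) → 
            M ^ n * B.card ≤ 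
              (3 ^ k * (3 * O.crossings.length + 6 * k + 2 * s + 1)) ^ n * ∏ e, (A e).card) ∧ 
        ∀ N : ℕ, {w : Fin k → ℤ | (∀ e, |w e| ≤ N) ∧ Small O s w ∧ det (O.fill w) ≠ 0}.ncard ≤ 
          (3 ^ k * (3 * O.crossings.length + 6 * k + 2 * s + 1)) ^ n * (2 * N + 1) ^ (k - n)) ∧ 
    (∀ (k m : ℕ), 0 < k → ∀ (i : Fin k → ℕ) (hi : ∀ j, i j + 1 < m), (∀ x, x + 1 < m → ∃ j, i j = x) → 
      (braidSites m i hi).Connected ∧ m ≤ pieces (flat (braidSites m i hi)) ∧ ∀ s N : ℕ, 
        {w : Fin k → ℤ | (∀ e, |w e| ≤ N) ∧ Small (braidSites m i hi) s w ∧ 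
          det ((braidSites m i hi).fill w) ≠ 0}.ncard ≤ 
            (3 ^ k * (6 * k + 2 * s + 1)) ^ (m - 1) * (2 * N + 1) ^ (k - (m - 1))) ∧ 
    (∀ (k : ℕ), 0 < k → ∀ (Γ : Ribbon k), Γ.Planar → 
      ((∀ d, Γ.rot d ≠ d ∧ Γ.rot (Γ.rot d) ≠ d) → 3 * Γ.verts ≤ 2 * k) ∧ ∀ s : ℕ, 
        (∀ w : Fin k → ℤ, SpanLE s (Γ.link w) → det (Γ.link w) ≠ 0 → 
          Many (6 * k + 2 * s) (k + 1 - Γ.verts) w) ∧ 
        ∀ N : ℕ, {w : Fin k → ℤ | (∀ e, |w e| ≤ N) ∧ SpanLE s (Γ.link w) ∧ det (Γ.link w) ≠ 0}.ncard ≤ 
          (3 ^ k * (6 * k + 2 * s + 1)) ^ (k + 1 - Γ.verts) * (2 * N + 1) ^ (Γ.verts - 1)) := by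
  refine ⟨?_, ?_, ?_⟩
  · intro k hk O hO
    refine ⟨fun w D hD hf => det_of_unit O hk w D hD hf, fun s => ⟨?_, structure_thm O hk hO s, ?_, ?_⟩⟩
    · intro w w' hw hw' D D' hD hD'
      exact rigid_fPoly O hk hO s w w' hw hw' D hD D' hD'
    · intro w _
      exact big_or_line O s w
    · intro n hn
      have h1 := many_of_small O hk hO s n hn
      have h2 := count_of_many (3 * O.crossings.length + 6 * k + 2 * s) n 
        (fun w => Small O s w ∧ det (O.fill w) ≠ 0) (fun w hw => h1 w hw.1 hw.2)
      exact ⟨h1, h2.1, h2.2⟩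
  · intro k m hk i hi hall
    refine ⟨braid_connected i hi hall, braid_pieces i hi, fun s N => ?_⟩
    exact (count_of_many (6 * k + 2 * s) (m - 1) 
      (fun w => Small (braidSites m i hi) s w ∧ det ((braidSites m i hi).fill w) ≠ 0) 
      (fun w hw => many_braid hk i hi hall s w hw.1 hw.2)).2 N
  · intro k hk Γ hΓ
    refine ⟨verts_le Γ, fun s => ?_⟩
    have h1 := many_graph Γ hk hΓ s
    refine ⟨h1, fun N => ?_⟩
    have h2 := (count_of_many (6 * k + 2 * s) (k + 1 - Γ.verts) 
      (fun w => SpanLE s (Γ.link w) ∧ det (Γ.link w) ≠ 0) (fun w hw => h1 w hw.1 hw.2)).2 N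
    have h3 : 0 < Γ.faces := by
      unfold Ribbon.faces
      have : Nonempty (Quot (fun x y : Fin k × Bool => Pool.Agent.H891R2.MT.flip (Γ.rot x) = y)) :=
        ⟨Quot.mk _ (⟨0, hk⟩, true)⟩
      have : Finite (Quot (fun x y : Fin k × Bool => Pool.Agent.H891R2.MT.flip (Γ.rot x) = y)) := 
        Quot.finite _
      exact Nat.card_pos
    have h4 := hΓ.2
    have h5 : k - (k + 1 - Γ.verts) = Γ.verts - 1 := by omega
    rw [h5] at h2
    exact h2

end Pool.Agent.Results.MP_42db45_gt.TwistCodimension
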